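import Pool.Agent.H.MP_6189ff_al.B

set_option autoImplicit false

namespace Pool.Agent.Results.MP_6189ff_al.Generated

open Pool.Agent.H.MP_6189ff_al

theorem result :
    (∃ (U : Type) (_ : Monoid U) (c : CP U), IsInitial c) ∧
    ∀ (U : Type) [Monoid U] (c : CP U), IsInitial c →
      Subgroup.closure {u : Uˣ | ∃ d : ℕ, 2 ≤ d ∧ ∃ (Φ : (Fin d → U) → U) (τ : Fin d → U),
        Str c d Φ τ ∧ ∃ σ : Equiv.Perm (Fin d), (u : U) = Φ fun i => τ (σ⁻¹ i)} = ⊤ :=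
  ⟨⟨UU, inferInstance, UU.cp, UU.initial⟩, fun _ _ _ hc => main hc⟩

end Pool.Agent.Results.MP_6189ff_al.Generated
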